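import Pool.Agent.H66.L.S8.W564.SC.Defs

/-!
# Small fields give diffeomorphisms
-/

set_option autoImplicit false

open scoped Manifold ContDiff Topology NNReal
open Filter Set Metric

universe u

namespace Pool.Agent.W428.SC

open Pool.Agent.H718R2.G Pool.Agent.W564.SC

theorem push : S_PUSH.{u} := by
  intro n N _ _ _ _ r χ z hχ u hu
  have hdiff : Differentiable ℝ u := hu.smooth.differentiable (by simp)
  have hl : LipschitzWith (1 / 2 : ℝ≥0) u := by
    apply lipschitzWith_of_nnnorm_fderiv_le hdiff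
    intro x
    have h1 := hu.bd 1 le_rfl x
    rw [norm_iteratedFDeriv_one] at h1
    rw [← NNReal.coe_le_coe, coe_nnnorm]
    simpa using h1
  obtain ⟨F, hF1, hF2, hF3⟩ := K5a.perturb u hu.smooth le_rfl hl
  have hid : ∀ v ∉ closedBall (0 : V n) (1 / 2), F v = v := by
    intro v hv
    rw [mem_closedBall, dist_zero_right, not_le] at hv
    rw [hF3, hu.supp v hv.le, add_zero]
  have hA : closedBall (0 : V n) (1 / 2) ⊆ χ.target :=
    (closedBall_subset_closedBall (by norm_num)).trans hχ.ball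
  have hcomp : IsCompact (χ.symm '' closedBall (0 : V n) (1 / 2)) :=
    (isCompact_closedBall _ _).image_of_continuousOn (χ.continuousOn_symm.mono hA)
  obtain ⟨Fm, hFm1, hFm2⟩ := transplant hχ.mem hA hcomp.isClosed F hF1 hF2 hid
  have hle : ((r : ℕ∞) : WithTop ℕ∞) ≤ ((⊤ : ℕ∞) : WithTop ℕ∞) := by
    exact_mod_cast (le_top : r ≤ ⊤)
  let Θ : DiffM n N r := ⟨Fm.toEquiv, Fm.contMDiff_toFun.of_le hle, Fm.contMDiff_invFun.of_le hle⟩
  have hΘ : ∀ y, Θ y = Fm y := fun y => rfl
  refine ⟨Θ, ?_, ?_⟩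
  · intro y hy
    have hmem : F (χ y) ∈ χ.target := by
      by_cases h : χ y ∈ closedBall (0 : V n) (1 / 2)
      · apply hA
        by_contra h2
        have h3 := F.injective (hid _ h2)
        rw [h3] at h2
        exact h2 h
      · rw [hid _ h]
        exact χ.map_source hy
    rw [hΘ, hFm1 y hy]
    refine ⟨χ.map_target hmem, ?_⟩
    rw [χ.right_inv hmem, hF3]
  · intro y hy
    rw [hΘ]
    apply hFm2
    rintro ⟨v, hv, rfl⟩
    exact hy (χ.map_target (hA hv))

end Pool.Agent.W428.SC
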